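import Pool.Agent.H88.B2.Targets2

/-!
Local smoothing in dimension `3` below `p = 10/3` (MP_ee74d2_an), the two-ends case: row DML,
four-linear restriction.
-/

set_option autoImplicit false

namespace Pool.Agent.H73.B2.DML

open MeasureTheory Set
open Pool.Agent.H83.G Pool.Agent.H88.B2
open Pool.Agent.H22.G4 (nv Ind)
open scoped ENNReal NNReal RealInnerProductSpace

/-- the support of the sum of the wave packets -/
private theorem supp {κ' R P : ℝ} {ζ : Z 2} {c η : E 2} (hκ : κ' ≤ 1 / 2)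
    (hR : 0 < R) (hP : 0 < P) (hs : 2 * sR R ≤ 1 / (400 * P)) (h : ζ ∈ Rg 2 κ' R⁻¹)
    (h1 : ‖ζ.1⁻¹ • ζ.2.1 - η‖ ≤ 2 * sR R) (h2 : ‖η - c‖ ≤ 1 / (400 * P)) :
    1 / 2 ≤ ζ.1 ∧ ζ.1 ≤ 6 ∧ ‖ζ.1⁻¹ • ζ.2.1 - c‖ ≤ 1 / (200 * P) ∧
      |ζ.2.2 - ‖ζ.2.1‖ ^ 2 / ζ.1| ≤ 4 / R := by
  obtain ⟨h3, h4, -, h5⟩ := h
  refine ⟨by linarith, by linarith, ?_, h5.trans ?_⟩
  · have h6 : ζ.1⁻¹ • ζ.2.1 - c = (ζ.1⁻¹ • ζ.2.1 - η) + (η - c) := by abel
    rw [h6]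
    have h7 : 1 / (200 * P) = 1 / (400 * P) + 1 / (400 * P) := by field_simp; norm_num
    rw [h7]
    exact (norm_add_le _ _).trans (add_le_add (h1.trans hs) h2)
  · rw [div_eq_mul_inv]
    exact mul_le_mul_of_nonneg_right (by linarith) (by positivity)

/-- the energy of the sum of the wave packets -/
private theorem enr {CE R a T I : ℝ} {S : Finset (Pk 2)} {N : ℕ} {β : E 2 → ℂ} {δ : ℝ}
    {G : Z 2 → ℂ} (hCE : 0 ≤ CE) (hT : 0 ≤ T) (ha : 0 ≤ a)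
    (h2 : ∀ W ∈ S, al2 N β R δ G W = ENNReal.ofReal (al N β R δ G W ^ 2))
    (h1 : ∀ W ∈ S, al N β R δ G W ≤ 2 * a)
    (h : ENNReal.ofReal I ≤ ENNReal.ofReal (CE * T) *
      ∑ W ∈ S, al2 N β R δ G W * ENNReal.ofReal (R ^ ((((2 : ℕ) : ℝ) + 2) / 2))) :
    I ≤ CE * T * (S.card * (4 * a ^ 2 * R ^ 2)) := by
  have h3 : ∑ W ∈ S, al2 N β R δ G W * ENNReal.ofReal (R ^ ((((2 : ℕ) : ℝ) + 2) / 2)) ≤
      ENNReal.ofReal (S.card * (4 * a ^ 2 * R ^ 2)) := by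
    calc ∑ W ∈ S, al2 N β R δ G W * ENNReal.ofReal (R ^ ((((2 : ℕ) : ℝ) + 2) / 2))
        ≤ ∑ _W ∈ S, ENNReal.ofReal (4 * a ^ 2 * R ^ 2) := by
          refine Finset.sum_le_sum fun W hW => ?_
          rw [h2 W hW, ← ENNReal.ofReal_mul (by positivity)]
          refine ENNReal.ofReal_le_ofReal ?_
          have h4 : R ^ ((((2 : ℕ) : ℝ) + 2) / 2) = R ^ 2 := by
            rw [← Real.rpow_natCast]
            norm_num
          rw [h4]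
          refine mul_le_mul_of_nonneg_right ?_ (by positivity)
          have h5 : 0 ≤ al N β R δ G W := Real.sqrt_nonneg _
          nlinarith [h1 W hW]
      _ = ENNReal.ofReal (S.card * (4 * a ^ 2 * R ^ 2)) := by
          rw [Finset.sum_const, nsmul_eq_mul,
            ENNReal.ofReal_mul (p := (S.card : ℝ)) (by positivity), ENNReal.ofReal_natCast]
  have h6 := h.trans (mul_le_mul_right h3 _)
  rw [← ENNReal.ofReal_mul (by positivity)] at h6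
  exact (ENNReal.ofReal_le_ofReal_iff (by positivity)).1 h6

/-- the product of the energies -/
private theorem prd {CE T R H a : ℝ} {I s : Fin 4 → ℝ} (hCE : 0 ≤ CE) (hT : 0 ≤ T) (hR : 0 < R)
    (hH : 0 < H) (hI : ∀ i, 0 ≤ I i) (hs : ∀ i, 0 ≤ s i)
    (h : ∀ i, I i ≤ CE * T * (s i * (4 * a ^ 2 * R ^ 2))) :
    (∏ i, (R⁻¹ * I i / H ^ 2) ^ (1 / 3 : ℝ)) * H ^ (8 / 3 : ℝ) ≤
      (4 * CE) ^ (4 / 3 : ℝ) * T ^ (4 / 3 : ℝ) * ∏ i, (a ^ 2 * s i * R) ^ (1 / 3 : ℝ) := by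
  have h1 : ∀ i, (R⁻¹ * I i / H ^ 2) ^ (1 / 3 : ℝ) ≤
      (4 * CE) ^ (1 / 3 : ℝ) * T ^ (1 / 3 : ℝ) * (a ^ 2 * s i * R) ^ (1 / 3 : ℝ) *
        (H ^ (2 / 3 : ℝ))⁻¹ := by
    intro i
    have h2 : R⁻¹ * I i / H ^ 2 ≤ 4 * CE * T * (a ^ 2 * s i * R) * (H ^ 2)⁻¹ := by
      rw [div_eq_mul_inv]
      refine mul_le_mul_of_nonneg_right ?_ (by positivity)
      have h3 : R⁻¹ * I i ≤ R⁻¹ * (CE * T * (s i * (4 * a ^ 2 * R ^ 2))) :=
        mul_le_mul_of_nonneg_left (h i) (by positivity)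
      refine h3.trans (le_of_eq ?_)
      field_simp
    have h4 : 0 ≤ R⁻¹ * I i / H ^ 2 := by
      have := hI i
      positivity
    refine (Real.rpow_le_rpow h4 h2 (by norm_num)).trans (le_of_eq ?_)
    have hsi := hs i
    rw [Real.mul_rpow (by positivity) (by positivity), Real.mul_rpow (by positivity) (by positivity),
      Real.mul_rpow (by positivity) (by positivity), Real.inv_rpow (by positivity),
      ← Real.rpow_natCast H 2, ← Real.rpow_mul hH.le]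
    norm_num
  have h5 : ∏ i, (R⁻¹ * I i / H ^ 2) ^ (1 / 3 : ℝ) ≤ ∏ i : Fin 4,
      ((4 * CE) ^ (1 / 3 : ℝ) * T ^ (1 / 3 : ℝ) * (a ^ 2 * s i * R) ^ (1 / 3 : ℝ) *
        (H ^ (2 / 3 : ℝ))⁻¹) := by
    refine Finset.prod_le_prod (fun i _ => ?_) fun i _ => h1 i
    have := hI i
    positivity
  have h6 : ∀ x : ℝ, 0 ≤ x → (x ^ (1 / 3 : ℝ)) ^ 4 = x ^ (4 / 3 : ℝ) := by
    intro x hx
    rw [← Real.rpow_natCast, ← Real.rpow_mul hx]
    norm_num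
  have h7 : ((H ^ (2 / 3 : ℝ))⁻¹) ^ 4 * H ^ (8 / 3 : ℝ) = 1 := by
    have h8 : (H ^ (2 / 3 : ℝ)) ^ 4 = H ^ (8 / 3 : ℝ) := by
      rw [← Real.rpow_natCast, ← Real.rpow_mul hH.le]
      norm_num
    rw [inv_pow, h8]
    exact inv_mul_cancel₀ (by positivity)
  calc (∏ i, (R⁻¹ * I i / H ^ 2) ^ (1 / 3 : ℝ)) * H ^ (8 / 3 : ℝ)
      ≤ (∏ i : Fin 4, ((4 * CE) ^ (1 / 3 : ℝ) * T ^ (1 / 3 : ℝ) *
        (a ^ 2 * s i * R) ^ (1 / 3 : ℝ) * (H ^ (2 / 3 : ℝ))⁻¹)) * H ^ (8 / 3 : ℝ) :=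
        mul_le_mul_of_nonneg_right h5 (by positivity)
    _ = ((4 * CE) ^ (1 / 3 : ℝ)) ^ 4 * (T ^ (1 / 3 : ℝ)) ^ 4 *
        (∏ i, (a ^ 2 * s i * R) ^ (1 / 3 : ℝ)) *
        (((H ^ (2 / 3 : ℝ))⁻¹) ^ 4 * H ^ (8 / 3 : ℝ)) := by
        rw [Finset.prod_mul_distrib, Finset.prod_mul_distrib, Finset.prod_mul_distrib,
          Finset.prod_const, Finset.prod_const, Finset.prod_const, Finset.card_univ,
          Fintype.card_fin]
        ring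
    _ = _ := by rw [h7, mul_one, h6 _ (by positivity), h6 _ hT]

/-- numbers -/
private theorem num {R P δ ε₀ : ℝ} (hR : 1 ≤ R) (hδ : δ ≤ 1 / 10000) (hε : ε₀ ≤ 1 / 1000)
    (hP : 1 ≤ P) (hPR : P ≤ R ^ ε₀) (h : 800 ≤ R ^ δ) : 2 * sR R ≤ 1 / (400 * P) := by
  have hR0 : 0 < R := by linarith
  have h1 : 800 * P ≤ Real.sqrt R := by
    calc 800 * P ≤ R ^ δ * R ^ ε₀ := mul_le_mul h hPR (by linarith) (by positivity)
      _ = R ^ (δ + ε₀) := (Real.rpow_add hR0 _ _).symm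
      _ ≤ R ^ (1 / 2 : ℝ) := Real.rpow_le_rpow_of_exponent_le hR (by linarith)
      _ = Real.sqrt R := (Real.sqrt_eq_rpow R).symm
  have h2 : 0 < Real.sqrt R := Real.sqrt_pos.2 hR0
  unfold sR
  rw [le_div_iff₀ (by linarith), ← div_eq_mul_inv, div_mul_eq_mul_div, div_le_one h2]
  linarith

theorem pf_DML (hFLP : Pool.Agent.H82.FP.T_FLP2) (hENP : T_ENP) (hDA1 : T_DA1) (hAMU : T_AMU) :
    T_DML := by
  classical
  intro ε' hε'
  obtain ⟨CF, E1, hCF, hE1, hF⟩ := hFLP ε' 4 hε' (by norm_num)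
  refine ⟨E1, hE1, fun L β Ψ ψ δ b₀ B ε₀ => ?_⟩
  obtain ⟨N1, hD⟩ := hDA1 L β Ψ ψ δ b₀ B ε₀
  refine ⟨max N1 5, fun N hN => ?_⟩
  have hN1 : N1 ≤ N := (le_max_left _ _).trans hN
  have hN5 : 2 + 3 ≤ N := (le_max_right N1 5).trans hN
  obtain ⟨CD, hCD, hD⟩ := hD N hN1
  by_cases hyp : IsPU β ∧ IsPsi Ψ ψ ∧ 0 < δ ∧ δ ≤ 1 / 10000
  swap
  · refine ⟨1, le_rfl, ?_⟩
    intro κ R P A H En G c z₀ S a b l k QQ X _ dat
    exact absurd ⟨dat.pu, dat.psi, dat.d0, dat.d1⟩ hyp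
  obtain ⟨hpu, hpsi, hδ0, hδ1⟩ := hyp
  obtain ⟨CE, hCE, hE⟩ := hENP 2 N β Ψ ψ δ hpu hpsi hδ0 (by linarith) hN5
  obtain ⟨CA, hCA, hA⟩ := hAMU 2 L N β δ hpu hδ0.le hN5
  obtain ⟨C4, hC4⟩ : ∃ C4 : ℝ, C4 = (4 * CE) ^ (4 / 3 : ℝ) := ⟨_, rfl⟩
  have hC41 : 1 ≤ C4 := by
    rw [hC4]
    exact Real.one_le_rpow (by linarith) (by norm_num)
  refine ⟨max (max CD CE) (max (max 800 (8 * CE)) (CD * CF * C4)),
    hCD.trans ((le_max_left _ _).trans (le_max_left _ _)), ?_⟩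
  intro κ R P A H En G c z₀ S a b l k QQ X hC dat
  have hR1 := dat.R1
  have hR0 : 0 < R := by linarith
  have hH := dat.H0
  have ha := dat.a0
  have hCD' : CD ≤ R ^ δ := (le_max_left _ _).trans ((le_max_left _ _).trans hC)
  have hCE' : CE ≤ R ^ δ := (le_max_right _ _).trans ((le_max_left _ _).trans hC)
  have h800 : 800 ≤ R ^ δ :=
    (le_max_left _ _).trans ((le_max_left _ _).trans ((le_max_right _ _).trans hC))
  have h8 : 8 * CE ≤ R ^ δ :=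
    (le_max_right _ _).trans ((le_max_left _ _).trans ((le_max_right _ _).trans hC))
  obtain ⟨CC, hCC⟩ : ∃ CC : ℝ,
      CC = max (max CD CE) (max (max 800 (8 * CE)) (CD * CF * C4)) := ⟨_, rfl⟩
  rw [← hCC]
  have hCC1 : CD * CF * C4 ≤ CC := by
    rw [hCC]
    exact (le_max_right _ _).trans (le_max_right _ _)
  have hCC0 : 0 ≤ CC := by
    have : 0 ≤ CD * CF * C4 := by positivity
    linarith
  rcases X.eq_empty_or_nonempty with hX | hX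
  · subst hX
    rw [Finset.card_empty, Nat.cast_zero, zero_mul]
    have : ∀ i : Fin 4, 0 ≤ (a ^ 2 * ((S i).card : ℝ) * R) ^ (1 / 3 : ℝ) := by
      intro i
      positivity
    exact mul_nonneg (by positivity) (Finset.prod_nonneg fun i _ => this i)
  obtain ⟨-, hc, -, -, -, hballs⟩ := hD κ R P A H En G c z₀ S a b l k QQ X hCD' dat hX
  have hs := num hR1 hδ1 dat.e1 dat.P1 dat.PR h800
  have hk : κ + CE * R ^ (-δ) ≤ 1 / 2 := by
    have h1 : CE * R ^ (-δ) ≤ 1 / 8 := by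
      rw [Real.rpow_neg hR0.le, ← div_eq_mul_inv, div_le_iff₀ (by positivity)]
      linarith
    have := dat.k1
    linarith
  obtain ⟨PI, hPI⟩ : ∃ PI : ℝ, PI = ∏ i, (a ^ 2 * ((S i).card : ℝ) * R) ^ (1 / 3 : ℝ) := ⟨_, rfl⟩
  have hPI0 : 0 ≤ PI := by
    rw [hPI]
    exact Finset.prod_nonneg fun i _ => by positivity
  rw [← hPI]
  -- one ball
  have hone : ∀ j ∈ X.image (Bz R ε₀),
      (((X.filter fun z => Bz R ε₀ z = j).card : ℝ)) * H ^ (8 / 3 : ℝ) ≤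
        CF * P ^ E1 * R ^ ε' * (C4 * (R ^ (lo 2 * δ)) ^ (4 / 3 : ℝ) * PI) := by
    intro j _
    have hG : ∀ i, ∃ G' : Z 2 → ℂ, TC G' ∧
        (∀ z, TF G' z = ∑ W ∈ SB QQ R (R ^ (1 - ε₀)) δ l k (S i) j, Fp β ψ R δ (G i) W z) ∧
        (∀ ζ, G' ζ ≠ 0 → 1 / 2 ≤ ζ.1 ∧ ζ.1 ≤ 6 ∧ ‖ζ.1⁻¹ • ζ.2.1 - c i‖ ≤ 1 / (200 * P) ∧
          |ζ.2.2 - ‖ζ.2.1‖ ^ 2 / ζ.1| ≤ 4 / R) ∧
        ∫ ζ, ‖G' ζ‖ ^ 2 ≤ CE * R ^ (lo 2 * δ) * ((S i).card * (4 * a ^ 2 * R ^ 2)) := by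
      intro i
      have hsub : SB QQ R (R ^ (1 - ε₀)) δ l k (S i) j ⊆ S i := Finset.filter_subset _ _
      obtain ⟨hTC, hRg, -⟩ := dat.cls i
      obtain ⟨G', h1, h2, h3, h4⟩ := hE κ R (G i) (SB QQ R (R ^ (1 - ε₀)) δ l k (S i) j)
        dat.k0 dat.k1 hR1 hCE' hTC hRg (fun W hW => (dat.pk i W (hsub hW)).1)
      refine ⟨G', h1, h2, ?_, ?_⟩
      · intro ζ hζ
        obtain ⟨h5, W, hW, h6⟩ := h3 ζ hζ
        exact supp hk hR0 (by linarith [dat.P1]) hs h5 h6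
          (dat.pk i W (hsub hW)).2.2.2.1
      · have h5 := enr (by linarith) (by positivity) ha.le
          (fun W _ => (hA κ R A (G i) W dat.k0 (by linarith [dat.k1]) hR1 dat.A0 (dat.cls i)).2)
          (fun W hW => (dat.pk i W (hsub hW)).2.2.2.2.2) h4
        refine h5.trans ?_
        have h6 : ((SB QQ R (R ^ (1 - ε₀)) δ l k (S i) j).card : ℝ) ≤ (S i).card := by
          exact_mod_cast Finset.card_le_card hsub
        gcongr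
    choose G' h1 h2 h3 h4 using hG
    have h5 := hF P R H c G' z₀ (X.filter fun z => Bz R ε₀ z = j) dat.P1 hR1 hH hc dat.ind h1 h3
      (fun z hz z' hz' => dat.sep z (Finset.mem_filter.1 hz).1 z' (Finset.mem_filter.1 hz').1)
      (fun z hz => dat.ball z (Finset.mem_filter.1 hz).1)
      (fun z hz i => by
        rw [h2 i z]
        have h6 := dat.FH z (Finset.mem_filter.1 hz).1 i
        unfold Sz at h6
        rwa [(Finset.mem_filter.1 hz).2] at h6)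
    have h6 := prd (a := a) (H := H) (R := R) (T := R ^ (lo 2 * δ)) (CE := CE)
      (I := fun i => ∫ ζ, ‖G' i ζ‖ ^ 2) (s := fun i => ((S i).card : ℝ)) (by linarith)
      (by positivity) hR0 hH (fun i => integral_nonneg fun ζ => by positivity)
      (fun i => by positivity) h4
    rw [← hC4, ← hPI] at h6
    calc (((X.filter fun z => Bz R ε₀ z = j).card : ℝ)) * H ^ (8 / 3 : ℝ)
        ≤ CF * P ^ E1 * R ^ ε' * (∏ i, (R⁻¹ * (∫ ζ, ‖G' i ζ‖ ^ 2) / H ^ 2) ^ (1 / 3 : ℝ)) *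
          H ^ (8 / 3 : ℝ) := mul_le_mul_of_nonneg_right h5 (by positivity)
      _ = CF * P ^ E1 * R ^ ε' * ((∏ i, (R⁻¹ * (∫ ζ, ‖G' i ζ‖ ^ 2) / H ^ 2) ^ (1 / 3 : ℝ)) *
          H ^ (8 / 3 : ℝ)) := by ring
      _ ≤ CF * P ^ E1 * R ^ ε' * (C4 * (R ^ (lo 2 * δ)) ^ (4 / 3 : ℝ) * PI) := by
          have hP0 : 0 < P := by linarith [dat.P1]
          exact mul_le_mul_of_nonneg_left h6 (by positivity)
  -- sum over the balls
  obtain ⟨V, hV⟩ : ∃ V : ℝ,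
      V = CF * P ^ E1 * R ^ ε' * (C4 * (R ^ (lo 2 * δ)) ^ (4 / 3 : ℝ) * PI) := ⟨_, rfl⟩
  have hP0 : 0 < P := by linarith [dat.P1]
  have hV0 : 0 ≤ V := by
    rw [hV]
    positivity
  have hsum : (X.card : ℝ) * H ^ (8 / 3 : ℝ) ≤ ((X.image (Bz R ε₀)).card : ℝ) * V := by
    have h1 : X.card = ∑ j ∈ X.image (Bz R ε₀), (X.filter fun z => Bz R ε₀ z = j).card :=
      Finset.card_eq_sum_card_image _ _
    rw [h1]
    push_cast
    rw [Finset.sum_mul]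
    refine (Finset.sum_le_sum hone).trans (le_of_eq ?_)
    rw [← hV, Finset.sum_const, nsmul_eq_mul]
  refine hsum.trans ((mul_le_mul_of_nonneg_right hballs hV0).trans ?_)
  have hPE : P ^ E1 ≤ R ^ (E1 * ε₀) := by
    calc P ^ E1 ≤ (R ^ ε₀) ^ E1 := Real.rpow_le_rpow hP0.le dat.PR hE1
      _ = R ^ (E1 * ε₀) := by rw [← Real.rpow_mul hR0.le, mul_comm]
  have hexp : R ^ (4 * ε₀) * (R ^ (lo 2 * δ)) ^ (4 / 3 : ℝ) ≤ R ^ (la * (δ + ε₀)) := by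
    rw [← Real.rpow_mul hR0.le, ← Real.rpow_add hR0]
    refine Real.rpow_le_rpow_of_exponent_le hR1 ?_
    have h1 : lo 2 = 400 := by
      unfold lo
      norm_num
    have h2 := dat.e0
    rw [h1]
    unfold la
    nlinarith
  rw [hV]
  calc CD * R ^ (4 * ε₀) * (CF * P ^ E1 * R ^ ε' * (C4 * (R ^ (lo 2 * δ)) ^ (4 / 3 : ℝ) * PI))
      = (CD * CF * C4) * (R ^ ε' * P ^ E1 * (R ^ (4 * ε₀) * (R ^ (lo 2 * δ)) ^ (4 / 3 : ℝ))) *
        PI := by ring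
    _ ≤ CC * (R ^ ε' * R ^ (E1 * ε₀) * R ^ (la * (δ + ε₀))) * PI := by
        gcongr
    _ = CC * R ^ (ε' + E1 * ε₀ + la * (δ + ε₀)) * PI := by
        rw [Real.rpow_add hR0, Real.rpow_add hR0]

end Pool.Agent.H73.B2.DML
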